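import Pool.Agent.helper88.RQ2.Spec

set_option autoImplicit false

open Set Matroid RadonMin

namespace RadonQ2

theorem FST_sub (hEB : EB_stmt) {V : Type} [AddCommGroup V] [Module ℝ V] [DecidableEq V]
    (P : Finset (Finset V)) : ∀ Y : Finset V, (∀ x, x ∈ Y ↔ ∃ B ∈ P, x ∈ B) →
      ra Y ≤ ∑ B ∈ P, ra B := by
  obtain ⟨-, -, hsub, -, h0, -, -⟩ := hEB V
  induction P using Finset.induction_on with
  | empty =>
    intro Y hY
    have h1 : Y = ∅ := by
      ext x
      simp [hY x]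
    rw [h1, h0]
    exact Nat.zero_le _
  | insert B P hB ih =>
    intro Y hY
    have h1 : Y = B ∪ P.biUnion id := by
      ext x
      rw [hY x]
      simp [Finset.mem_biUnion]
    rw [h1, Finset.sum_insert hB]
    refine (hsub _ _).trans (Nat.add_le_add_left (ih _ ?_) _)
    intro x
    simp [Finset.mem_biUnion]

theorem FST_proof (hGRA : GRA_stmt) (hEB : EB_stmt) : FST_stmt := by
  intro V _ _ _ T K d X hX
  have hG := hGRA V
  obtain ⟨-, -, hsub, -, h0, -, -⟩ := hEB V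
  constructor
  · rintro ⟨P, ⟨B₀, hB₀, hT, hK⟩, hne, hdis, hun, hfin, hsum⟩
    have hX1 : ra X = d + 1 := by rw [hG X hX, hfin]
    have hs1 : ∑ B ∈ P, ra B = d + 1 := by
      rw [← hsum]
      exact Finset.sum_congr rfl fun B hB => hG B (hne B hB)
    have hB₀X : B₀ ⊆ X := fun x hx => (hun x).2 ⟨B₀, hB₀, hx⟩
    have hun' : ∀ x, x ∈ X \ B₀ ↔ ∃ B ∈ P.erase B₀, x ∈ B := by
      intro x
      rw [Finset.mem_sdiff, hun x]
      constructor
      · rintro ⟨⟨B, hB, hx⟩, hx0⟩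
        exact ⟨B, Finset.mem_erase.2 ⟨fun h => hx0 (h ▸ hx), hB⟩, hx⟩
      · rintro ⟨B, hB, hx⟩
        obtain ⟨hne', hB⟩ := Finset.mem_erase.1 hB
        refine ⟨⟨B, hB, hx⟩, fun hx0 => ?_⟩
        have h1 := hdis hB hB₀ hne'
        exact Finset.disjoint_left.1 h1 hx hx0
    have hle1 : ra (X \ B₀) ≤ ∑ B ∈ P.erase B₀, ra B := FST_sub hEB _ _ hun'
    have hsplit : ra B₀ + ∑ B ∈ P.erase B₀, ra B = ∑ B ∈ P, ra B :=
      Finset.add_sum_erase P ra hB₀
    have hle2 : ra X ≤ ra B₀ + ra (X \ B₀) := by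
      have h1 := hsub B₀ (X \ B₀)
      rwa [Finset.union_sdiff_of_subset hB₀X] at h1
    refine ⟨hX1, B₀, hB₀X, hne B₀ hB₀, hT, ⟨P.erase B₀, ?_, ?_, hun', ?_⟩, ?_⟩
    · intro B hB
      obtain ⟨h1, h2⟩ := Finset.mem_erase.1 hB
      exact ⟨hne B h2, hK B h2 h1⟩
    · exact hdis.subset (by
        intro B hB
        exact Finset.mem_of_mem_erase hB)
    · omega
    · omega
  · rintro ⟨hX1, B₀, hB₀X, hB₀ne, hT, ⟨P, hP, hdis, hun, hsum⟩, hra⟩
    have hsubP : ∀ B ∈ P, B ⊆ X \ B₀ := fun B hB x hx => (hun x).2 ⟨B, hB, hx⟩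
    have hdis0 : ∀ B ∈ P, Disjoint B₀ B := by
      intro B hB
      rw [Finset.disjoint_left]
      intro x hx hx'
      exact (Finset.mem_sdiff.1 (hsubP B hB hx')).2 hx
    have hnot : B₀ ∉ P := by
      intro h
      obtain ⟨x, hx⟩ := hB₀ne
      exact Finset.disjoint_left.1 (hdis0 B₀ h) hx hx
    have hne : ∀ B ∈ insert B₀ P, B.Nonempty := by
      intro B hB
      rcases Finset.mem_insert.1 hB with rfl | hB
      · exact hB₀ne
      · exact (hP B hB).1
    refine ⟨insert B₀ P, ⟨B₀, Finset.mem_insert_self _ _, hT, ?_⟩, hne, ?_, ?_, ?_, ?_⟩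
    · intro B hB hne'
      rcases Finset.mem_insert.1 hB with h | hB
      · exact absurd h hne'
      · exact (hP B hB).2
    · rw [Finset.coe_insert, Set.pairwiseDisjoint_insert_of_notMem (by simpa using hnot)]
      exact ⟨hdis, fun B hB => hdis0 B hB⟩
    · intro x
      constructor
      · intro hx
        by_cases hx0 : x ∈ B₀
        · exact ⟨B₀, Finset.mem_insert_self _ _, hx0⟩
        · obtain ⟨B, hB, hxB⟩ := (hun x).1 (Finset.mem_sdiff.2 ⟨hx, hx0⟩)
          exact ⟨B, Finset.mem_insert_of_mem hB, hxB⟩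
      · rintro ⟨B, hB, hxB⟩
        rcases Finset.mem_insert.1 hB with rfl | hB
        · exact hB₀X hxB
        · exact (Finset.mem_sdiff.1 (hsubP B hB hxB)).1
    · have h1 := hG X hX
      omega
    · have h1 : ∑ B ∈ insert B₀ P, (Module.finrank ℝ (vectorSpan ℝ (B : Set V)) + 1) =
          ∑ B ∈ insert B₀ P, ra B :=
        Finset.sum_congr rfl fun B hB => (hG B (hne B hB)).symm
      rw [h1, Finset.sum_insert hnot, hsum, ← hra, hX1]

end RadonQ2
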